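import Mathlib
import Pool.Agent.Lib.MP_fef6c2_gt.Sep

set_option autoImplicit false

open Pool.Agent.Lib.MP_fef6c2_gt

namespace Pool.Agent.Results.MP_fef6c2_gt.Classification

/-- For `n ≥ 2`, a locally compact subset of `ℝⁿ` with connected complement that is neither compact
nor open is injectively rigid exactly when it is closed, connected and has bounded complement. -/
theorem result (n : ℕ) (hn : 2 ≤ n) (X : Set (EuclideanSpace ℝ (Fin n)))
    (hlc : LocallyCompactSpace X) (hns : IsConnected Xᶜ) (hnc : ¬ IsCompact X) (hno : ¬ IsOpen X) :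
    (∀ f : X → EuclideanSpace ℝ (Fin n), Continuous f → Function.Injective f →
        Topology.IsEmbedding f) ↔
      (IsClosed X ∧ IsConnected X ∧ Bornology.IsBounded Xᶜ) := by
  have hrk : 1 < Module.rank ℝ (EuclideanSpace ℝ (Fin n)) := by
    rw [← Module.finrank_eq_rank, finrank_euclideanSpace_fin]
    exact_mod_cast hn
  constructor
  · intro hrig
    have h1 : IsClosed X ∧ Bornology.IsBounded Xᶜ := by
      by_contra hn
      obtain ⟨f, hf, hi, he⟩ := not_rigid_of_compl_connected hrk hns hnc hno hn
      exact he (hrig f hf hi)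
    refine ⟨h1.1, ⟨?_, ?_⟩, h1.2⟩
    · by_contra hne
      rw [Set.not_nonempty_iff_eq_empty] at hne
      exact hnc (hne ▸ isCompact_empty)
    · by_contra hX
      obtain ⟨f, hf, hi, he⟩ := not_rigid_of_disconnected hrk h1.1 h1.2 hX
      exact he (hrig f hf hi)
  · rintro ⟨h1, h2, h3⟩ f hf hi
    exact rigid_euclidean hn h1 h2.isPreconnected h3 f hf hi

end Pool.Agent.Results.MP_fef6c2_gt.Classification
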