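import Mathlib
import Pool.Agent.Lib.MP_fef6c2_gt.Plane

set_option autoImplicit false

open Pool.Agent.Lib.MP_fef6c2_gt Set Metric

namespace Pool.Agent.Results.MP_fef6c2_gt.Exists

/-- There is a locally compact subset of the plane with connected complement, neither compact nor
open, on which every continuous injection into the plane is an embedding. -/
theorem result : ∃ X : Set (EuclideanSpace ℝ (Fin 2)), LocallyCompactSpace X ∧ IsConnected Xᶜ ∧
    ¬ IsCompact X ∧ ¬ IsOpen X ∧
    ∀ f : X → EuclideanSpace ℝ (Fin 2), Continuous f → Function.Injective f →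
      Topology.IsEmbedding f := by
  have hcl : IsClosed (ball (0 : EuclideanSpace ℝ (Fin 2)) 1)ᶜ := isOpen_ball.isClosed_compl
  have hpre : IsPreconnected (ball (0 : EuclideanSpace ℝ (Fin 2)) 1)ᶜ := by
    refine (isPreconnected_outside one_lt_rank_plane zero_le_one).subset_closure ?_ ?_
    · intro x hx
      have : 1 < ‖x‖ := hx
      simpa using this.le
    · intro x hx
      have hx1 : 1 ≤ ‖x‖ := by simpa using hx
      have ht : Filter.Tendsto (fun t : ℝ => t • x) (nhdsWithin 1 (Ioi 1)) (nhds x) := by
        have : Filter.Tendsto (fun t : ℝ => t • x) (nhds 1) (nhds ((1 : ℝ) • x)) :=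
          (continuous_id.smul continuous_const).tendsto 1
        rw [one_smul] at this
        exact this.mono_left nhdsWithin_le_nhds
      refine mem_closure_of_tendsto ht ?_
      filter_upwards [self_mem_nhdsWithin] with t ht'
      have ht1 : 1 < t := ht'
      change 1 < ‖t • x‖
      rw [norm_smul, Real.norm_eq_abs, abs_of_pos (by linarith)]
      nlinarith
  refine ⟨(ball 0 1)ᶜ, hcl.locallyCompactSpace, ?_, ?_, ?_, ?_⟩
  · rw [compl_compl]
    exact isConnected_ball one_pos
  · intro hc
    obtain ⟨R, hR0, hR⟩ := hc.isBounded.subset_closedBall_lt 1 (0 : EuclideanSpace ℝ (Fin 2))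
    obtain ⟨p, hp⟩ := NormedSpace.exists_lt_norm ℝ (EuclideanSpace ℝ (Fin 2)) R
    have h1 : p ∈ (ball (0 : EuclideanSpace ℝ (Fin 2)) 1)ᶜ := by
      simp only [mem_compl_iff, mem_ball, dist_zero_right, not_lt]
      linarith
    have h2 := hR h1
    simp only [mem_closedBall, dist_zero_right] at h2
    linarith
  · intro ho
    rcases isClopen_iff.1 ⟨hcl, ho⟩ with h | h
    · obtain ⟨p, hp⟩ := NormedSpace.exists_lt_norm ℝ (EuclideanSpace ℝ (Fin 2)) 1
      have h1 : p ∈ (ball (0 : EuclideanSpace ℝ (Fin 2)) 1)ᶜ := by simpa using hp.le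
      rw [h] at h1
      exact h1
    · have h1 : (0 : EuclideanSpace ℝ (Fin 2)) ∈ (ball (0 : EuclideanSpace ℝ (Fin 2)) 1)ᶜ := by
        rw [h]
        trivial
      exact h1 (mem_ball_self one_pos)
  · intro f hf hi
    exact rigid_plane hcl hpre (by rw [compl_compl]; exact isBounded_ball) f hf hi

end Pool.Agent.Results.MP_fef6c2_gt.Exists
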