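import Mathlib
import Pool.Agent.Lib.MP_fef6c2_gt.Plane

set_option autoImplicit false

open Pool.Agent.Lib.MP_fef6c2_gt

namespace Pool.Agent.Results.MP_fef6c2_gt.SphereNo

/-- A locally compact subset of the plane that does not separate the sphere and is neither compact
nor open admits a continuous injection into the plane that is not an embedding. -/
theorem result (X : Set (EuclideanSpace ℝ (Fin 2))) (hlc : LocallyCompactSpace X)
    (hns : IsConnected ((fun x : EuclideanSpace ℝ (Fin 2) =>
      (x : OnePoint (EuclideanSpace ℝ (Fin 2)))) '' X)ᶜ)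
    (hnc : ¬ IsCompact X) (hno : ¬ IsOpen X) :
    ∃ f : X → EuclideanSpace ℝ (Fin 2), Continuous f ∧ Function.Injective f ∧
      ¬ Topology.IsEmbedding f :=
  not_rigid_of_sphere_connected one_lt_rank_plane hns hnc hno

end Pool.Agent.Results.MP_fef6c2_gt.SphereNo
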